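import Pool.Agent.W630.LT.Fin
import Pool.Agent.W630.LT.Symm

/-!
# Lagrangian tori in `ℝ^{2n}`, `n ≥ 5`, which are not Lagrangian isotopic to the Clifford torus
-/

open Pool.Agent.W630.LT

/-- For every `n ≥ 5` the Clifford torus is a Lagrangian torus and there is a Lagrangian torus in
`ℝ^{2n}` which is not Lagrangian isotopic to the Clifford torus. -/
theorem Pool.Agent.Results.MP_a67bd8_gt.NotIsotopicToClifford.result (n : ℕ) (hn : 5 ≤ n) :
    IsLagrangianTorus (cliffordTorus n) ∧
      ∃ L : Set (Fin n → ℂ), IsLagrangianTorus L ∧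
        ¬ LagrangianIsotopic (cliffordTorus n) L ∧ ¬ LagrangianIsotopic L (cliffordTorus n) := by
  obtain ⟨L, hL, h⟩ := not_isotopic s_even n hn
  exact ⟨isLagrangianTorus_clifford (by omega), L, hL, h, fun h' => h h'.symm⟩
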